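import Pool.Agent.N993.WV.Stm

/-!
# Few words have few letters in a given set (leaf TAIL of the project WV)
-/

set_option autoImplicit false

namespace Pool.Agent.N645.WV

open Pool.Agent.N993.WV

variable {n : ℕ}

/-- the number of words with few letters in `Y` -/
def cnt (Y : Finset (Fin n)) (l K : ℕ) : ℕ :=
  ∑ w : Fin l → Fin n, if (del Y (List.ofFn w)).length < K then 1 else 0

theorem del_cons_mem (Y : Finset (Fin n)) (l : ℕ) (a : Fin n) (ha : a ∈ Y) (w : Fin l → Fin n) :
    (del Y (List.ofFn (Fin.cons a w : Fin (l + 1) → Fin n))).length = (del Y (List.ofFn w)).length + 1 := by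
  rw [List.ofFn_succ]
  simp [del, ha]

theorem del_cons_notMem (Y : Finset (Fin n)) (l : ℕ) (a : Fin n) (ha : a ∉ Y) (w : Fin l → Fin n) :
    (del Y (List.ofFn (Fin.cons a w : Fin (l + 1) → Fin n))).length = (del Y (List.ofFn w)).length := by
  rw [List.ofFn_succ]
  simp [del, ha]

theorem cnt_succ (Y : Finset (Fin n)) (l K : ℕ) :
    cnt Y (l + 1) (K + 1) = ∑ a : Fin n, if a ∈ Y then cnt Y l K else cnt Y l (K + 1) := by
  unfold cnt
  rw [← (Fin.consEquiv (fun _ => Fin n)).sum_comp, Fintype.sum_prod_type]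
  refine Finset.sum_congr rfl fun a _ => ?_
  split_ifs with ha
  · refine Finset.sum_congr rfl fun w _ => ?_
    have h := del_cons_mem Y l a ha w
    have h2 : (Fin.consEquiv (fun _ => Fin n)) (a, w) = (Fin.cons a w : Fin (l + 1) → Fin n) := rfl
    rw [h2, h]
    simp
  · refine Finset.sum_congr rfl fun w _ => ?_
    have h := del_cons_notMem Y l a ha w
    have h2 : (Fin.consEquiv (fun _ => Fin n)) (a, w) = (Fin.cons a w : Fin (l + 1) → Fin n) := rfl
    rw [h2, h]

theorem cnt_le (Y : Finset (Fin n)) (hY : 2 ≤ Y.card) (l : ℕ) :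
    ∀ K, cnt Y l K ≤ 2 ^ K * (n - 1) ^ l := by
  induction l with
  | zero =>
    intro K
    have h : cnt Y 0 K ≤ 1 := by
      unfold cnt
      rw [Fintype.sum_unique]
      split_ifs <;> omega
    rw [pow_zero, mul_one]
    exact h.trans Nat.one_le_two_pow
  | succ l ih =>
    intro K
    rcases K with _ | K
    · simp [cnt]
    · rw [cnt_succ]
      have h1 : ∑ a : Fin n, (if a ∈ Y then cnt Y l K else cnt Y l (K + 1)) ≤
          ∑ a : Fin n, (if a ∈ Y then 1 else 2) * (2 ^ K * (n - 1) ^ l) := by
        refine Finset.sum_le_sum fun a _ => ?_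
        split_ifs with ha
        · rw [one_mul]
          exact ih K
        · refine (ih (K + 1)).trans (le_of_eq ?_)
          ring
      refine h1.trans ?_
      rw [← Finset.sum_mul]
      have h2 : (∑ a : Fin n, (if a ∈ Y then 1 else 2)) + Y.card = 2 * n := by
        have h3 : Y.card = ∑ a : Fin n, (if a ∈ Y then 1 else 0) := by simp
        rw [h3, ← Finset.sum_add_distrib]
        have h4 : ∀ a : Fin n, ((if a ∈ Y then 1 else 2) + (if a ∈ Y then 1 else 0) : ℕ) = 2 := by
          intro a
          split_ifs <;> rfl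
        rw [Finset.sum_congr rfl fun a _ => h4 a]
        simp [mul_comm]
      have h5 : (∑ a : Fin n, (if a ∈ Y then 1 else 2)) ≤ 2 * (n - 1) := by omega
      calc (∑ a : Fin n, (if a ∈ Y then 1 else 2)) * (2 ^ K * (n - 1) ^ l)
          ≤ 2 * (n - 1) * (2 ^ K * (n - 1) ^ l) := Nat.mul_le_mul_right _ h5
        _ = 2 ^ (K + 1) * (n - 1) ^ (l + 1) := by ring

theorem t_tail : S_TAIL := by
  classical
  intro n l K Y hY
  have h : Nat.card {w : Fin l → Fin n // (del Y (List.ofFn w)).length < K} = cnt Y l K := by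
    rw [Nat.card_eq_fintype_card, Fintype.card_subtype]
    unfold cnt
    rw [Finset.card_filter]
  rw [h]
  exact cnt_le Y hY l K

end Pool.Agent.N645.WV
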